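import Pool.Agent.U68.TU.Stm

set_option autoImplicit false

/-!
# Project TU (helper68), package DIRRAT (helper857)

`t_DIR : S_DIRG → S_DIR` (Dirichlet's theorem in the quadratic extension `M = K(√α)`) and
`t_RAT : S_DIR → S_PNORM → S_RAT`.
-/

namespace Pool.Agent.U857.TU

open NumberField Pool.Agent.U68.TU

/-- the norm of an integer which is `1` modulo `N` is `1` modulo `N` -/
theorem norm_mod {M : Type} [Field M] [NumberField M] (N : ℕ) (x : 𝓞 M) (h : (N : 𝓞 M) ∣ x - 1) :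
    (N : ℤ) ∣ Algebra.norm ℤ x - 1 := by
  classical
  obtain ⟨y, hy⟩ := h
  have hx : x = 1 + (N : 𝓞 M) * y := by rw [← hy]; ring
  have h1 : ((Algebra.norm ℤ x : ℤ) : ZMod N) = 1 := by
    rw [Algebra.norm_eq_matrix_det (RingOfIntegers.basis M) x]
    have h2 : (((Algebra.leftMulMatrix (RingOfIntegers.basis M) x).det : ℤ) : ZMod N) =
        ((Int.castRingHom (ZMod N)).mapMatrix (Algebra.leftMulMatrix (RingOfIntegers.basis M) x)).det :=
      RingHom.map_det (Int.castRingHom (ZMod N)) (Algebra.leftMulMatrix (RingOfIntegers.basis M) x)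
    rw [h2, hx, map_add, map_one, map_mul, map_natCast, map_add, map_one, map_mul, map_natCast]
    have h3 : ((N : ℕ) : Matrix (Module.Free.ChooseBasisIndex ℤ (𝓞 M))
        (Module.Free.ChooseBasisIndex ℤ (𝓞 M)) (ZMod N)) = 0 := by
      rw [← Matrix.diagonal_natCast']
      simp
    rw [h3, zero_mul, add_zero, Matrix.det_one]
  have h4 : ((Algebra.norm ℤ x - 1 : ℤ) : ZMod N) = 0 := by
    push_cast
    rw [h1, sub_self]
  exact (ZMod.intCast_zmod_eq_zero_iff_dvd _ N).1 h4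

/-- every complex embedding of `K` is real -/
theorem real_emb {K : Type} [Field K] [NumberField K] (B : BQ K) (σ : K →+* ℂ) :
    ∃ φ : K →+* ℝ, ∀ x, σ x = (φ x : ℂ) := by
  have hs2 : (σ (B.s : K)) ^ 2 = 2 := by
    rw [← map_pow]
    have : ((B.s : K)) ^ 2 = 2 := by
      have h := congrArg (algebraMap (𝓞 K) K) B.hs
      rwa [map_pow, map_ofNat] at h
    rw [this, map_ofNat]
  have hf2 : (σ (B.f : K)) ^ 2 = σ (B.f : K) + 1 := by
    rw [← map_pow]
    have : ((B.f : K)) ^ 2 = (B.f : K) + 1 := by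
      have h := congrArg (algebraMap (𝓞 K) K) B.hf
      rwa [map_pow, map_add, map_one] at h
    rw [this, map_add, map_one]
  have real_of_sq : ∀ (z : ℂ) (a : ℝ), 0 ≤ a → z ^ 2 = (a : ℂ) → (starRingEnd ℂ) z = z := by
    intro z a ha hz
    have h1 : z ^ 2 = ((Real.sqrt a : ℝ) : ℂ) ^ 2 := by
      rw [hz, ← Complex.ofReal_pow, Real.sq_sqrt ha]
    rcases sq_eq_sq_iff_eq_or_eq_neg.1 h1 with h | h
    · rw [h, Complex.conj_ofReal]
    · rw [h, map_neg, Complex.conj_ofReal]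
  have hsr : (starRingEnd ℂ) (σ (B.s : K)) = σ (B.s : K) :=
    real_of_sq _ 2 (by norm_num) (by rw [hs2]; norm_num)
  have hfr : (starRingEnd ℂ) (σ (B.f : K)) = σ (B.f : K) := by
    have h1 : (starRingEnd ℂ) (σ (B.f : K) - 1 / 2) = σ (B.f : K) - 1 / 2 := by
      refine real_of_sq _ (5 / 4) (by norm_num) ?_
      have : (σ (B.f : K) - 1 / 2) ^ 2 = (σ (B.f : K)) ^ 2 - σ (B.f : K) + 1 / 4 := by ring
      rw [this, hf2]
      push_cast
      ring
    rw [map_sub, map_div₀, map_one, map_ofNat] at h1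
    linear_combination h1
  have key : (starRingEnd ℂ).comp σ = σ := by
    refine IsLocalization.ringHom_ext (nonZeroDivisors (𝓞 K)) ?_
    refine RingHom.ext fun x => ?_
    have hx : x = B.co.symm (B.co x) := by simp
    have hxK : (x : K) = ((B.co x 0 : ℤ) : K) + (B.co x 1 : ℤ) * (B.f : K) + (B.co x 2 : ℤ) * (B.s : K) +
        (B.co x 3 : ℤ) * ((B.s : K) * (B.f : K)) := by
      have h := congrArg (algebraMap (𝓞 K) K) (hx.trans (B.hco (B.co x)))
      rw [map_add, map_add, map_add, map_mul, map_mul, map_mul, map_mul, map_intCast, map_intCast,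
        map_intCast, map_intCast] at h
      exact h
    change (starRingEnd ℂ) (σ (x : K)) = σ (x : K)
    rw [hxK]
    simp only [map_add, map_mul, map_intCast, hsr, hfr]
  have hreal : ComplexEmbedding.IsReal σ := by
    rw [ComplexEmbedding.isReal_iff]
    refine RingHom.ext fun x => ?_
    exact congrArg (fun g : K →+* ℂ => g x) key
  exact ⟨hreal.embedding, fun x => (hreal.coe_embedding_apply x).symm⟩

/-- the norm of a totally positive integer is positive -/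
theorem norm_pos {K : Type} [Field K] [NumberField K] (B : BQ K) (p : 𝓞 K) (hp : TP (p : K)) :
    0 < Algebra.norm ℤ p := by
  have h1 := Algebra.norm_eq_prod_embeddings ℚ ℂ (p : K)
  choose g hg using fun σ : K →ₐ[ℚ] ℂ => real_emb B (σ : K →+* ℂ)
  have h2 : (algebraMap ℚ ℂ) (Algebra.norm ℚ (p : K)) = ((∏ σ : K →ₐ[ℚ] ℂ, g σ (p : K) : ℝ) : ℂ) := by
    rw [h1, Complex.ofReal_prod]
    exact Finset.prod_congr rfl fun σ _ => hg σ (p : K)
  rw [← Algebra.coe_norm_int] at h2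
  have h3 : ((Algebra.norm ℤ p : ℤ) : ℝ) = ∏ σ : K →ₐ[ℚ] ℂ, g σ (p : K) := by
    have : (((Algebra.norm ℤ p : ℤ) : ℝ) : ℂ) = ((∏ σ : K →ₐ[ℚ] ℂ, g σ (p : K) : ℝ) : ℂ) := by
      rw [← h2]; simp
    exact_mod_cast this
  have h4 : (0 : ℝ) < ((Algebra.norm ℤ p : ℤ) : ℝ) := by
    rw [h3]
    exact Finset.prod_pos fun σ _ => hp (g σ)
  exact_mod_cast h4

theorem exN {K : Type} [Field K] [NumberField K] (α : K) (hα : TP α) :
    ∃ N : ℕ, 0 < N ∧ 4 ∣ N ∧ ∀ φ : K →+* ℝ, 1 < (N : ℝ) ^ 2 * φ α := by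
  classical
  have h1 : ∀ φ : K →+* ℝ, ∃ n : ℕ, 1 < (n : ℝ) * φ α := by
    intro φ
    obtain ⟨n, hn⟩ := exists_nat_gt (1 / φ α)
    exact ⟨n, by rwa [div_lt_iff₀ (hα φ)] at hn⟩
  choose n hn using h1
  refine ⟨4 * (1 + ∑ φ : K →+* ℝ, n φ), by positivity, ⟨_, rfl⟩, fun φ => ?_⟩
  set S : ℕ := ∑ φ : K →+* ℝ, n φ with hS
  have h2 : n φ ≤ S := Finset.single_le_sum (f := n) (fun _ _ => Nat.zero_le _) (Finset.mem_univ φ)
  have h3 : (n φ : ℝ) ≤ ((4 * (1 + S) : ℕ) : ℝ) := by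
    have : n φ ≤ 4 * (1 + S) := by omega
    exact_mod_cast this
  have h5 : (1 : ℝ) ≤ ((4 * (1 + S) : ℕ) : ℝ) := by
    have : 1 ≤ 4 * (1 + S) := by omega
    exact_mod_cast this
  have h4 : ((4 * (1 + S) : ℕ) : ℝ) ≤ ((4 * (1 + S) : ℕ) : ℝ) ^ 2 := by nlinarith
  calc (1 : ℝ) < n φ * φ α := hn φ
    _ ≤ ((4 * (1 + S) : ℕ) : ℝ) ^ 2 * φ α :=
      mul_le_mul_of_nonneg_right (h3.trans h4) (hα φ).le

theorem finrank_eq {K : Type} [Field K] [NumberField K] (B : BQ K) : Module.finrank ℚ K = 4 := by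
  rw [← RingOfIntegers.rank K]
  rw [LinearEquiv.finrank_eq B.co.toIntLinearEquiv]
  simp

theorem core {K : Type} [Field K] [NumberField K] (B : BQ K) (hD : S_DIRG) (α : 𝓞 K) (hα : TP (α : K))
    (M : Type) [Field M] [NumberField M] [Algebra K M] (r : M) (hr : r ^ 2 = algebraMap K M (α : K))
    (hco : ∀ z : M, ∃ x w : K, z = algebraMap K M x + algebraMap K M w * r ∧
      Algebra.norm K z = x ^ 2 - (α : K) * w ^ 2)
    (hlift : ∀ (φ : K →+* ℝ) (c : ℝ), c ^ 2 = φ (α : K) →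
      ∃ ψ : M →+* ℝ, (∀ x, ψ (algebraMap K M x) = φ x) ∧ ψ r = c) :
    ∃ (x w : K) (p : 𝓞 K), w ≠ 0 ∧ TP (p : K) ∧
    (α : K) * w ^ 2 - x ^ 2 = (p : K) ∧ (Ideal.span {p}).IsPrime ∧
    ∃ ℓ : ℕ, ℓ.Prime ∧ Ideal.absNorm (Ideal.span {p}) = ℓ ∧ ℓ % 4 = 1 := by
  obtain ⟨N, hN0, hN4, hN⟩ := exN (α : K) hα
  have hint : IsIntegral ℤ r := by
    refine IsIntegral.of_pow (n := 2) (by norm_num) ?_
    rw [hr]
    exact (RingOfIntegers.isIntegral_coe α).algebraMap
  set rO : 𝓞 M := ⟨r, hint⟩ with hrO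
  have hrOc : (rO : M) = r := rfl
  set t : 𝓞 M := 1 + (N : 𝓞 M) * rO with ht
  have htc : (t : M) = 1 + (N : M) * r := by
    rw [ht]
    change algebraMap (𝓞 M) M _ = _
    rw [map_add, map_mul, map_one, map_natCast]
    rfl
  -- the two extensions of a real embedding
  have hpos : ∀ (φ : K →+* ℝ) (ψ : M →+* ℝ), (∀ x, ψ (algebraMap K M x) = φ x) →
      ψ r = Real.sqrt (φ (α : K)) → 0 < ψ (t : M) := by
    intro φ ψ _ hψ
    rw [htc, map_add, map_mul, map_one, map_natCast, hψ]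
    positivity
  have hneg : ∀ (φ : K →+* ℝ) (ψ : M →+* ℝ), (∀ x, ψ (algebraMap K M x) = φ x) →
      ψ r = - Real.sqrt (φ (α : K)) → ¬ 0 < ψ (t : M) := by
    intro φ ψ _ hψ
    rw [htc, map_add, map_mul, map_one, map_natCast, hψ]
    have h1 : 1 < (N : ℝ) * Real.sqrt (φ (α : K)) := by
      have h2 : (1 : ℝ) ^ 2 < ((N : ℝ) * Real.sqrt (φ (α : K))) ^ 2 := by
        rw [mul_pow, Real.sq_sqrt (hα φ).le, one_pow]
        exact hN φ
      exact lt_of_pow_lt_pow_left₀ 2 (by positivity) h2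
    nlinarith
  -- a real embedding of `K`
  obtain ⟨φ0, -, -⟩ := B.emb (Real.sqrt 2) ((1 + Real.sqrt 5) / 2) (by norm_num)
    (by have : Real.sqrt 5 ^ 2 = 5 := Real.sq_sqrt (by norm_num)
        nlinarith)
  have ht0 : t ≠ 0 := by
    intro h
    obtain ⟨ψ, hψ1, hψ2⟩ := hlift φ0 (Real.sqrt (φ0 (α : K))) (Real.sq_sqrt (hα φ0).le)
    have := hpos φ0 ψ hψ1 hψ2
    rw [h] at this
    simp at this
  obtain ⟨θ, hθp, hθN, hθ1, hθs⟩ := hD M N t hN0 ht0 ⟨rO, by rw [ht]; ring⟩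
  obtain ⟨x, w, hxw, hnorm⟩ := hco (θ : M)
  have hθ0 : (θ : M) ≠ 0 := by
    intro h
    have h0 : θ = 0 := by
      apply RingOfIntegers.ext
      rw [h]; rfl
    rw [h0, Ideal.absNorm_span_singleton] at hθN
    simp at hθN
    exact Nat.not_prime_zero hθN
  set p : 𝓞 K := - RingOfIntegers.norm K θ with hp
  have hpc : (p : K) = (α : K) * w ^ 2 - x ^ 2 := by
    have h1 : (p : K) = - Algebra.norm K (θ : M) := by
      rw [hp]
      change algebraMap (𝓞 K) K _ = _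
      rw [map_neg]
      rfl
    rw [h1, hnorm]; ring
  have hTP : TP (p : K) := by
    intro φ
    obtain ⟨ψ, hψ1, hψ2⟩ := hlift φ (Real.sqrt (φ (α : K))) (Real.sq_sqrt (hα φ).le)
    obtain ⟨ψ', hψ1', hψ2'⟩ := hlift φ (-Real.sqrt (φ (α : K)))
      (by rw [neg_sq]; exact Real.sq_sqrt (hα φ).le)
    have h1 : 0 < ψ (θ : M) := (hθs ψ).1 (hpos φ ψ hψ1 hψ2)
    have h2 : ¬ 0 < ψ' (θ : M) := fun h => hneg φ ψ' hψ1' hψ2' ((hθs ψ').2 h)
    have h3 : ψ' (θ : M) ≠ 0 := fun h => hθ0 ((map_eq_zero ψ').1 h)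
    have h4 : ψ' (θ : M) < 0 := lt_of_le_of_ne (not_lt.1 h2) h3
    rw [hxw, map_add, map_mul, hψ1, hψ1, hψ2] at h1
    rw [hxw, map_add, map_mul, hψ1', hψ1', hψ2'] at h4
    have h5 := mul_pos h1 (neg_pos.2 h4)
    rw [hpc, map_sub, map_mul, map_pow, map_pow]
    have h6 : Real.sqrt (φ (α : K)) ^ 2 = φ (α : K) := Real.sq_sqrt (hα φ).le
    nlinarith
  have hw : w ≠ 0 := by
    intro h
    have h1 := hTP φ0
    rw [hpc, h, map_sub, map_mul, map_pow, map_pow, map_zero] at h1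
    nlinarith [sq_nonneg (φ0 x)]
  -- norms
  have hnn : Algebra.norm ℤ p = Algebra.norm ℤ θ := by
    have h1 : ((Algebra.norm ℤ p : ℤ) : ℚ) = ((Algebra.norm ℤ θ : ℤ) : ℚ) := by
      have h3 : Algebra.norm ℚ (Algebra.norm K (θ : M)) = Algebra.norm ℚ (θ : M) := Algebra.norm_norm
      rw [Algebra.coe_norm_int, Algebra.coe_norm_int, ← h3]
      have h2 : (p : K) = algebraMap ℚ K (-1) * Algebra.norm K (θ : M) := by
        rw [hp]
        change algebraMap (𝓞 K) K _ = _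
        rw [map_neg, map_neg, map_one, neg_one_mul]
        rfl
      rw [h2, map_mul, Algebra.norm_algebraMap, finrank_eq B]
      norm_num
    exact_mod_cast h1
  have hpos' : 0 < Algebra.norm ℤ p := norm_pos B p hTP
  have habs : Ideal.absNorm (Ideal.span {p}) = (Algebra.norm ℤ p).natAbs :=
    Ideal.absNorm_span_singleton p
  have hpr : (Algebra.norm ℤ p).natAbs.Prime := by
    rw [hnn, ← Ideal.absNorm_span_singleton]
    exact hθN
  have hmod : (4 : ℤ) ∣ Algebra.norm ℤ p - 1 := by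
    rw [hnn]
    exact (Int.natCast_dvd_natCast.2 hN4).trans (norm_mod N θ hθ1)
  refine ⟨x, w, p, hw, hTP, hpc.symm, ?_, (Algebra.norm ℤ p).natAbs, hpr, habs, by omega⟩
  refine Ideal.isPrime_of_irreducible_absNorm ?_
  rw [habs]
  exact hpr

theorem qnorm {K : Type} [Field K] (a : K) (z : QuadraticAlgebra K a 0) :
    Algebra.norm K z = z.re ^ 2 - a * z.im ^ 2 := by
  have h1 : Algebra.norm K z = z.norm := by
    rw [← QuadraticAlgebra.det_toLinearMap_eq_norm, Algebra.norm_apply]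
    congr 1
  rw [h1, QuadraticAlgebra.norm_def]
  ring

theorem t_DIR (hD : S_DIRG) : S_DIR := by
  intro K _ _ B α hα hns
  have hF : Fact (∀ r : K, r ^ 2 ≠ (α : K) + 0 * r) :=
    ⟨fun r h => hns ⟨r, by rw [h]; ring⟩⟩
  have : CharZero (QuadraticAlgebra K (α : K) 0) :=
    charZero_of_injective_algebraMap (algebraMap K (QuadraticAlgebra K (α : K) 0)).injective
  have : FiniteDimensional ℚ (QuadraticAlgebra K (α : K) 0) :=
    FiniteDimensional.trans ℚ K (QuadraticAlgebra K (α : K) 0)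
  have : NumberField (QuadraticAlgebra K (α : K) 0) := ⟨⟩
  refine core B hD α hα (QuadraticAlgebra K (α : K) 0) ⟨0, 1⟩ ?_ ?_ ?_
  · ext <;> simp [sq]
  · intro z
    refine ⟨z.re, z.im, ?_, qnorm _ z⟩
    ext <;> simp
  · intro φ c hc
    refine ⟨{ toFun := fun z => φ z.re + φ z.im * c
              map_one' := by simp [QuadraticAlgebra.re_one, QuadraticAlgebra.im_one]
              map_zero' := by simp
              map_add' := fun z w => by simp; ring
              map_mul' := fun z w => by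
                simp only [QuadraticAlgebra.re_mul, QuadraticAlgebra.im_mul, map_add, map_mul, map_zero]
                rw [← hc]; ring }, ?_, ?_⟩
    · intro x
      simp
    · simp

theorem t_RAT (hDIR : S_DIR) (hP : S_PNORM) : S_RAT := by
  intro K _ _ B α hα
  by_cases h : ∃ x : K, x ^ 2 = (α : K)
  · obtain ⟨x, hx⟩ := h
    exact ⟨x, 0, 0, by rw [hx]; ring⟩
  · obtain ⟨x, w, p, hw, hp, he, hprime, ℓ, hℓ, habs, hmod⟩ := hDIR K B α hα h
    obtain ⟨y, z, hyz⟩ := hP K B p ℓ hp hprime hℓ habs hmod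
    refine ⟨x / w, y / w, z / w, ?_⟩
    field_simp
    linear_combination hyz - he

end Pool.Agent.U857.TU
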